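import Pool.Agent.V1171.MLP.Edge
import Pool.Agent.V1171.MLP.Fin

set_option autoImplicit false

/-!
The quadratic Mittag-Leffler combination `ψ_α` has zeros on the half-line for `α` arbitrarily close
to `2`.
-/

namespace Pool.Agent.Results.MP_aff8e8_an.ZerosNearTwo

open Filter Topology Set

/-- the two-parameter Mittag-Leffler function `∑ z^k / Γ(α k + β)` -/
noncomputable def E (α β : ℝ) (z : ℂ) : ℂ := ∑' k : ℕ, z ^ k / Complex.Gamma (α * k + β)

/-- `i^{-α} = exp (-i π α / 2)` -/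
noncomputable def c (α : ℝ) : ℂ := Complex.exp (-(Complex.I * Real.pi * α / 2))

/-- `ψ_α(t) = E_{α,1}(i^{-α} t)^2 - i^{-α} t E_{α,2}(i^{-α} t) E_{α,α}(i^{-α} t)` -/
noncomputable def psi (α t : ℝ) : ℂ :=
  E α 1 (c α * t) ^ 2 - c α * t * E α 2 (c α * t) * E α α (c α * t)

lemma c_eq (α : ℝ) : c α = V1171.MLP.cc α := by
  unfold c V1171.MLP.cc
  congr 1
  push_cast
  ring

lemma E_eq (α β τ : ℝ) : E α β (c α * ((τ ^ α : ℝ) : ℂ)) = V1171.MLP.EE α β τ := by
  unfold E V1171.MLP.EE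
  congr 1
  funext k
  unfold V1171.MLP.et
  have e1 : Complex.Gamma (α * k + β) = ((Real.Gamma (α * k + β) : ℝ) : ℂ) := by
    rw [← Complex.Gamma_ofReal]
    push_cast
    rfl
  rw [e1, c_eq, div_eq_mul_inv, ← Complex.ofReal_inv]

lemma psi_eq (α τ : ℝ) : psi α (τ ^ α) = V1171.MLP.Fn α τ := by
  unfold psi V1171.MLP.Fn
  rw [E_eq, E_eq, E_eq, c_eq]

/-- zeros of `ψ_α` on `(0, ∞)` for `α < 2` arbitrarily close to `2` -/
theorem result : ∀ ε : ℝ, 0 < ε →
    ∃ α t : ℝ, 1 < α ∧ 2 - ε < α ∧ α < 2 ∧ 0 < t ∧ psi α t = 0 := by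
  intro ε hε
  by_contra hcon
  push Not at hcon
  set a : ℝ := max (7 / 4) (2 - ε / 2) with ha
  have ha1 : 7 / 4 ≤ a := le_max_left _ _
  have ha2 : a < 2 := max_lt (by norm_num) (by linarith)
  have ha3 : 2 - ε < a := lt_of_lt_of_le (by linarith) (le_max_right _ _)
  refine V1171.MLP.no_lift V1171.MLP.Fn a ha2 (V1171.MLP.Fn_cont (by linarith))
    (fun τ _ => V1171.MLP.Fn_two) ?_ ?_ ?_
  · intro α hα τ hτ h0
    rcases eq_or_lt_of_le hτ with h | h
    · rw [← h, V1171.MLP.Fn_zero (by linarith [hα.1])] at h0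
      exact one_ne_zero h0
    rcases eq_or_lt_of_le hα.2 with h' | h'
    · rw [h', V1171.MLP.Fn_two] at h0
      exact one_ne_zero h0
    exact hcon α (τ ^ α) (by linarith [hα.1]) (by linarith [hα.1]) h' (Real.rpow_pos_of_pos h _)
      ((psi_eq α τ).trans h0)
  · filter_upwards [V1171.MLP.top_edge, eventually_gt_atTop 0] with m hm hm0 α hα
    have hm' : (0 : ℝ) < m := by exact_mod_cast hm0
    have hpos : 0 < 2 * Real.pi * (m : ℝ) := by positivity
    rcases eq_or_lt_of_le hα.2 with h' | h'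
    · rw [h', V1171.MLP.Fn_two]
      unfold V1171.MLP.ell
      simp
    · rw [V1171.MLP.Fn_psi hpos]
      exact hm α (by linarith [hα.1]) h'
  · filter_upwards [V1171.MLP.left_edge ha1 ha2, eventually_gt_atTop 0] with τ hτ hτ0
    rw [V1171.MLP.Fn_psi hτ0]
    exact hτ

end Pool.Agent.Results.MP_aff8e8_an.ZerosNearTwo
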